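import Mathlib
import Pool.Agent.X189.SN.Main

set_option autoImplicit false

/-!
On every smooth complex Banach space, for every self-adjoint `T`, the operators `‖T‖² I - T²` and
`T² - μ(T)² I` are strongly normal.
-/

namespace Pool.Agent.Results.MP_cd4dc1_an.StrongNormality

open Pool.Agent.X189.SN

variable {X : Type*} [NormedAddCommGroup X] [NormedSpace ℂ X]

/-- `T` is strongly normal: it is the square of a self-adjoint operator. -/
def StronglyNormal (T : X →L[ℂ] X) : Prop := ∃ S : X →L[ℂ] X, SelfAdj S ∧ T = S ^ 2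

/-- The minimum modulus `μ(T) = inf {‖T x‖ : ‖x‖ = 1}`. -/
noncomputable def minMod (T : X →L[ℂ] X) : ℝ := sInf ((fun x : X => ‖T x‖) '' {x | ‖x‖ = 1})

theorem minMod_nonneg (T : X →L[ℂ] X) : 0 ≤ minMod T :=
  Real.sInf_nonneg (by rintro _ ⟨x, -, rfl⟩; exact norm_nonneg _)

theorem minMod_le (T : X →L[ℂ] X) (x : X) : minMod T * ‖x‖ ≤ ‖T x‖ := by
  by_cases hx : x = 0
  · simp [hx]
  · have hxp : 0 < ‖x‖ := norm_pos_iff.2 hx
    have h1 : minMod T ≤ ‖T (((‖x‖ : ℝ) : ℂ)⁻¹ • x)‖ := by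
      refine csInf_le ⟨0, by rintro _ ⟨y, -, rfl⟩; exact norm_nonneg _⟩ ⟨_, ?_, rfl⟩
      show ‖((‖x‖ : ℝ) : ℂ)⁻¹ • x‖ = 1
      rw [norm_smul, norm_inv, Complex.norm_real, norm_norm, inv_mul_cancel₀ hxp.ne']
    rw [map_smul, norm_smul, norm_inv, Complex.norm_real, norm_norm, inv_mul_eq_div,
      le_div_iff₀ hxp] at h1
    exact h1

theorem result {X : Type*} [NormedAddCommGroup X] [NormedSpace ℂ X] [CompleteSpace X]
    (hX : Smooth X) (T : X →L[ℂ] X) (hT : SelfAdj T) :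
    StronglyNormal (((‖T‖ ^ 2 : ℝ) : ℂ) • (1 : X →L[ℂ] X) - T ^ 2) ∧
      StronglyNormal (T ^ 2 - ((minMod T ^ 2 : ℝ) : ℂ) • (1 : X →L[ℂ] X)) :=
  ⟨q1 hX hT, q2 hX hT (minMod_nonneg T) (minMod_le T)⟩

end Pool.Agent.Results.MP_cd4dc1_an.StrongNormality
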